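import Mathlib
import Pool.Agent.N990.RU.Stm

/-!
# RU/EXI: existence of a Gibbs state by compactness (adapted by helper667 from the proof of helper712 of
RT/EXI to edge dependent couplings)
-/

open MeasureTheory ProbabilityTheory Filter Topology
open Pool.Agent.N988.EA
open Pool.Agent.N990.RU

namespace Pool.Agent.N667.RU

noncomputable section

variable {p : ℕ → Fin 2 × Bool} {J : EdgeInf 2 p → ℝ × Ang}

theorem ends_meas (p : ℕ → Fin 2 × Bool) (n : ℕ) : Measurable (ends p n) := by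
  unfold ends
  exact measurable_pi_lambda _ fun t => measurable_pi_apply _

theorem repl_meas (h2 : S_GEO) (p : ℕ → Fin 2 × Bool) (n : ℕ) :
    Measurable fun z : (VInf p → Ang) × (Vert 2 n → Ang) => repl p n z.1 z.2 :=
  (h2 p).2.2.2.2.2.2.2.1 n

theorem repl_cont (h2 : S_GEO) (p : ℕ → Fin 2 × Bool) (n : ℕ) :
    Continuous fun z : (VInf p → Ang) × (Vert 2 n → Ang) => repl p n z.1 z.2 :=
  (h2 p).2.2.2.2.2.2.1 n

theorem gib_prob (h1 : S_BAS) (n : ℕ) (K : Cpl n) (τ : Bool → Ang) :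
    IsProbabilityMeasure (gib n K τ) := (h1 n K).2.2.2.1 τ

theorem GG_meas (h1 : S_BAS) (h2 : S_GEO) (n : ℕ) {f : (VInf p → Ang) → ℝ} (hf : Measurable f) :
    Measurable (GG p J n f) :=
  (h1 n (rs p J n)).2.2.2.2.2 (VInf p → Ang) (ends p n) (fun z => f (repl p n z.1 z.2))
    (ends_meas p n) (hf.comp (repl_meas h2 p n))

theorem GG_bdd (h1 : S_BAS) (n : ℕ) {f : (VInf p → Ang) → ℝ} {C : ℝ} (hf : ∀ ω, |f ω| ≤ C)
    (ω : VInf p → Ang) : |GG p J n f ω| ≤ C := by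
  haveI := gib_prob h1 n (rs p J n) (ends p n ω)
  have := norm_integral_le_of_norm_le_const (μ := gib n (rs p J n) (ends p n ω))
    (f := fun σ => f (repl p n ω σ)) (C := C) (ae_of_all _ fun σ => hf _)
  simpa [GG, Real.norm_eq_abs] using this

theorem GG_cons (h1 : S_BAS) (h2 : S_GEO) (h3 : S_CNS) {f : (VInf p → Ang) → ℝ}
    (hf : Measurable f) (hb : ∃ C, ∀ ω, |f ω| ≤ C) (n k : ℕ) (ω : VInf p → Ang) :
    GG p J (n + 1 + k) (GG p J n f) ω = GG p J (n + 1 + k) f ω := by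
  induction k generalizing ω with
  | zero => exact h3 p J n f hf hb ω
  | succ k ih =>
    have hb' : ∃ C, ∀ ω, |GG p J n f ω| ≤ C := by
      obtain ⟨C, hC⟩ := hb
      exact ⟨C, fun ω => GG_bdd h1 n hC ω⟩
    have e1 := h3 p J (n + 1 + k) (GG p J n f) (GG_meas h1 h2 n hf) hb' ω
    have e2 := h3 p J (n + 1 + k) f hf hb ω
    have e3 : GG p J (n + 1 + k) (GG p J n f) = GG p J (n + 1 + k) f := funext ih
    rw [e3] at e1
    exact e1.symm.trans e2

/-- The finite volume law. -/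
def muN (p : ℕ → Fin 2 × Bool) (J : EdgeInf 2 p → ℝ × Ang) (N : ℕ) : Measure (VInf p → Ang) :=
  (gib N (rs p J N) (ends p N fun _ => 0)).map (fun σ => repl p N (fun _ => 0) σ)

theorem repl_meas0 (h2 : S_GEO) (p : ℕ → Fin 2 × Bool) (n : ℕ) (ω : VInf p → Ang) :
    Measurable fun σ : Vert 2 n → Ang => repl p n ω σ :=
  (repl_meas h2 p n).comp (measurable_const.prodMk measurable_id)

theorem muN_prob (h1 : S_BAS) (h2 : S_GEO) (p : ℕ → Fin 2 × Bool) (J : EdgeInf 2 p → ℝ × Ang)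
    (N : ℕ) : IsProbabilityMeasure (muN p J N) := by
  haveI := gib_prob h1 N (rs p J N) (ends p N fun _ => 0)
  exact Measure.isProbabilityMeasure_map (repl_meas0 h2 p N _).aemeasurable

theorem muN_int (h2 : S_GEO) (p : ℕ → Fin 2 × Bool) (J : EdgeInf 2 p → ℝ × Ang) (N : ℕ)
    {f : (VInf p → Ang) → ℝ}
    (hf : Measurable f) : ∫ ω, f ω ∂(muN p J N) = GG p J N f fun _ => 0 := by
  unfold muN GG
  rw [integral_map (repl_meas0 h2 p N _).aemeasurable hf.aestronglyMeasurable]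

theorem lim_ex (h1 : S_BAS) (h2 : S_GEO) (h3 : S_CNS) (h4 : S_FEL)
    (p : ℕ → Fin 2 × Bool) (J : EdgeInf 2 p → ℝ × Ang) :
    ∃ μ : Measure (VInf p → Ang), IsProbabilityMeasure μ ∧
      ∀ (n : ℕ) (f : (VInf p → Ang) → ℝ), Continuous f →
        ∫ ω, f ω ∂μ = ∫ ω, GG p J n f ω ∂μ := by
  haveI : Countable (VInf p) := (h2 p).1
  let PM : ℕ → ProbabilityMeasure (VInf p → Ang) := fun N => ⟨muN p J N, muN_prob h1 h2 p J N⟩
  let F : Ultrafilter (ProbabilityMeasure (VInf p → Ang)) := (hyperfilter ℕ).map PM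
  have hT : Tendsto PM (hyperfilter ℕ : Filter ℕ) (𝓝 F.lim) := by
    have := F.le_nhds_lim
    exact this
  have key := ProbabilityMeasure.tendsto_iff_forall_integral_tendsto.1 hT
  have hc : ∀ f : (VInf p → Ang) → ℝ, Continuous f →
      Tendsto (fun N => ∫ ω, f ω ∂(muN p J N)) (hyperfilter ℕ : Filter ℕ)
        (𝓝 (∫ ω, f ω ∂(F.lim : Measure (VInf p → Ang)))) := by
    intro f hf
    exact key (BoundedContinuousFunction.mkOfCompact ⟨f, hf⟩)
  refine ⟨(F.lim : Measure (VInf p → Ang)), inferInstance, fun n f hf => ?_⟩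
  have hb : ∃ C, ∀ ω, |f ω| ≤ C := by
    have := (BoundedContinuousFunction.mkOfCompact ⟨f, hf⟩).norm_coe_le_norm
    exact ⟨_, this⟩
  refine tendsto_nhds_unique_of_eventuallyEq (hc f hf) (hc _ (h4 p J n f hf)) ?_
  refine Nat.hyperfilter_le_atTop (eventually_atTop.2 ⟨n + 1, fun N hN => ?_⟩)
  obtain ⟨k, rfl⟩ := Nat.exists_eq_add_of_le hN
  show ∫ ω, f ω ∂(muN p J (n + 1 + k)) = ∫ ω, GG p J n f ω ∂(muN p J (n + 1 + k))
  rw [muN_int h2 p J _ hf.measurable, muN_int h2 p J _ (GG_meas h1 h2 n hf.measurable),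
    GG_cons h1 h2 h3 hf.measurable hb]

theorem kern_meas (h1 : S_BAS) (p : ℕ → Fin 2 × Bool) (J : EdgeInf 2 p → ℝ × Ang) (n : ℕ) :
    Measurable fun ω : VInf p → Ang => gib n (rs p J n) (ends p n ω) := by
  refine Measure.measurable_of_measurable_coe _ fun s hs => ?_
  have e : (fun ω : VInf p → Ang => gib n (rs p J n) (ends p n ω) s) = fun ω =>
      ENNReal.ofReal (∫ σ, s.indicator (fun _ => (1 : ℝ)) σ ∂(gib n (rs p J n) (ends p n ω))) := by
    funext ω
    haveI := gib_prob h1 n (rs p J n) (ends p n ω)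
    have := integral_indicator_one (μ := gib n (rs p J n) (ends p n ω)) hs
    have e2 : ∫ σ, s.indicator (fun _ => (1 : ℝ)) σ ∂(gib n (rs p J n) (ends p n ω)) =
        (gib n (rs p J n) (ends p n ω)).real s := this
    rw [e2, ofReal_measureReal]
  rw [e]
  refine ENNReal.measurable_ofReal.comp ?_
  exact (h1 n (rs p J n)).2.2.2.2.2 (VInf p → Ang) (ends p n)
    (fun z => s.indicator (fun _ => (1 : ℝ)) z.2) (ends_meas p n)
    ((measurable_const.indicator hs).comp measurable_snd)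

/-- The kernel. -/
def kern (h1 : S_BAS) (p : ℕ → Fin 2 × Bool) (J : EdgeInf 2 p → ℝ × Ang) (n : ℕ) :
    Kernel (VInf p → Ang) (Vert 2 n → Ang) :=
  ⟨fun ω => gib n (rs p J n) (ends p n ω), kern_meas h1 p J n⟩

theorem kern_mk (h1 : S_BAS) (p : ℕ → Fin 2 × Bool) (J : EdgeInf 2 p → ℝ × Ang) (n : ℕ) :
    IsMarkovKernel (kern h1 p J n) := ⟨fun ω => gib_prob h1 n (rs p J n) (ends p n ω)⟩

theorem nu_int (h1 : S_BAS) (h2 : S_GEO) (n : ℕ) (μ : Measure (VInf p → Ang))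
    [IsProbabilityMeasure μ] {f : (VInf p → Ang) → ℝ} (hf : Measurable f)
    (hb : ∃ C, ∀ ω, |f ω| ≤ C) :
    ∫ ω, f ω ∂((μ ⊗ₘ kern h1 p J n).map fun z => repl p n z.1 z.2) = ∫ ω, GG p J n f ω ∂μ := by
  haveI := kern_mk h1 p J n
  rw [integral_map (repl_meas h2 p n).aemeasurable hf.aestronglyMeasurable,
    Measure.integral_compProd]
  · rfl
  · obtain ⟨C, hC⟩ := hb
    exact Integrable.of_bound ((hf.comp (repl_meas h2 p n)).aestronglyMeasurable) C
      (ae_of_all _ fun z => hC _)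

theorem t_exi (h1 : Pool.Agent.N990.RU.S_BAS) (h2 : Pool.Agent.N990.RU.S_GEO)
    (h3 : Pool.Agent.N990.RU.S_CNS) (h4 : Pool.Agent.N990.RU.S_FEL) :
    Pool.Agent.N990.RU.S_EXI := by
  intro p J
  haveI : Countable (VInf p) := (h2 p).1
  obtain ⟨μ, hμ, H⟩ := lim_ex h1 h2 h3 h4 p J
  refine ⟨μ, hμ, fun n f hf hb => ?_⟩
  haveI := kern_mk h1 p J n
  haveI : IsProbabilityMeasure ((μ ⊗ₘ kern h1 p J n).map fun z => repl p n z.1 z.2) :=
    Measure.isProbabilityMeasure_map (repl_meas h2 p n).aemeasurable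
  have e : μ = (μ ⊗ₘ kern h1 p J n).map fun z => repl p n z.1 z.2 := by
    refine ext_of_forall_integral_eq_of_IsFiniteMeasure fun g => ?_
    rw [nu_int h1 h2 n μ g.continuous.measurable ⟨_, g.norm_coe_le_norm⟩]
    exact H n g g.continuous
  have e2 := nu_int (J := J) h1 h2 n μ hf hb
  rw [← e] at e2
  exact e2

end

end Pool.Agent.N667.RU
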